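import Pool.Agent.Lib.MP_a60258_s6.Iface

/-!
# MP_a60258_pr, project S6, module ENU (helper22): the enumeration reaches every graph with
maximal code
-/

set_option autoImplicit false

open Finset

namespace A602.S6.H22

/-! ### Raw tools -/

theorem frc_eq {β : Type} (n : ℕ) (f : ℕ → β) : frc n f = f n := by
  cases n <;> rfl

theorem fa_get {n : ℕ} {f : ℕ → Bool} (h : fa n f = true) {k : ℕ} (hk : k ≤ n) : f k = true := by
  induction n with
  | zero =>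
    obtain rfl : k = 0 := by omega
    exact h
  | succ n ih =>
    have h' : cond (f (n + 1)) (fa n f) false = true := h
    cases hf : f (n + 1) with
    | false =>
      rw [hf] at h'
      exact absurd h' (by simp)
    | true =>
      rw [hf] at h'
      have h2 : fa n f = true := h'
      by_cases hkn : k = n + 1
      · rw [hkn]
        exact hf
      · exact ih h2 (by omega)

theorem can_of {FL : List (List ℕ)} {C : ℕ} (h : ∀ ks ∈ FL, hor C ks 0 ≤ C) :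
    can FL C = true := by
  induction FL with
  | nil => rfl
  | cons ks l ih =>
    have h1 : Nat.ble (hor C ks 0) C = true :=
      Nat.ble_eq_true_of_le (h ks (List.mem_cons_self ..))
    have h2 : can l C = true := ih fun k hk => h k (List.mem_cons_of_mem _ hk)
    change cond (Nat.ble (hor C ks 0) C) (can l C) false = true
    rw [h1, h2]
    rfl

theorem hor_eq (C : ℕ) (l : List ℕ) (acc : ℕ) :
    hor C l acc = l.foldl (fun acc k => acc * 16 + dg C k) acc := by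
  induction l generalizing acc with
  | nil => rfl
  | cons k l ih =>
    have h1 : hor C (k :: l) acc = hor C l (16 * acc + dg C k) := rfl
    rw [h1, ih, mul_comm 16 acc]
    rfl

/-! ### The code -/

/-- hexadecimal number of a table of digits -/
def H (d : Fin 6 → Fin 6 → ℕ) : ℕ :=
  ((((((((((((((d 0 1 * 16 + d 0 2) * 16 + d 0 3) * 16 + d 0 4) * 16 + d 0 5) * 16 + d 1 2) * 16
    + d 1 3) * 16 + d 1 4) * 16 + d 1 5) * 16 + d 2 3) * 16 + d 2 4) * 16 + d 2 5) * 16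
    + d 3 4) * 16 + d 3 5) * 16 + d 4 5)

/-- sum over the pairs -/
theorem sum_Pr (f : Pr → ℕ) : ∑ e, f e =
    f (.inl 0) + f (.inl 1) + f (.inl 2) + (f (.inr (.inl 0)) + f (.inr (.inl 1))
      + f (.inr (.inl 2)) + (f (.inr (.inr (0, 0))) + f (.inr (.inr (0, 1)))
      + f (.inr (.inr (0, 2))) + (f (.inr (.inr (1, 0))) + f (.inr (.inr (1, 1)))
      + f (.inr (.inr (1, 2)))) + (f (.inr (.inr (2, 0))) + f (.inr (.inr (2, 1)))
      + f (.inr (.inr (2, 2)))))) := by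
  rw [Fintype.sum_sum_type, Fintype.sum_sum_type, Fintype.sum_prod_type]
  simp only [Fin.sum_univ_three]

theorem code_act (σ : Equiv.Perm (Fin 6)) (x : Pr → ℕ) :
    code (act σ x) = H fun i j => x (pr (σ i) (σ j)) := by
  unfold code
  rw [sum_Pr]
  have e0 : act σ x (.inl 0) = x (pr (σ 0) (σ 1)) := rfl
  have e1 : act σ x (.inl 1) = x (pr (σ 0) (σ 2)) := rfl
  have e2 : act σ x (.inl 2) = x (pr (σ 1) (σ 2)) := rfl
  have e3 : act σ x (.inr (.inl 0)) = x (pr (σ 3) (σ 4)) := rfl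
  have e4 : act σ x (.inr (.inl 1)) = x (pr (σ 3) (σ 5)) := rfl
  have e5 : act σ x (.inr (.inl 2)) = x (pr (σ 4) (σ 5)) := rfl
  have f0 : act σ x (.inr (.inr (0, 0))) = x (pr (σ 0) (σ 3)) := rfl
  have f1 : act σ x (.inr (.inr (0, 1))) = x (pr (σ 0) (σ 4)) := rfl
  have f2 : act σ x (.inr (.inr (0, 2))) = x (pr (σ 0) (σ 5)) := rfl
  have f3 : act σ x (.inr (.inr (1, 0))) = x (pr (σ 1) (σ 3)) := rfl
  have f4 : act σ x (.inr (.inr (1, 1))) = x (pr (σ 1) (σ 4)) := rfl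
  have f5 : act σ x (.inr (.inr (1, 2))) = x (pr (σ 1) (σ 5)) := rfl
  have f6 : act σ x (.inr (.inr (2, 0))) = x (pr (σ 2) (σ 3)) := rfl
  have f7 : act σ x (.inr (.inr (2, 1))) = x (pr (σ 2) (σ 4)) := rfl
  have f8 : act σ x (.inr (.inr (2, 2))) = x (pr (σ 2) (σ 5)) := rfl
  have p0 : posP (.inl 0) = 14 := rfl
  have p1 : posP (.inl 1) = 13 := rfl
  have p2 : posP (.inl 2) = 9 := rfl
  have p3 : posP (.inr (.inl 0)) = 2 := rfl
  have p4 : posP (.inr (.inl 1)) = 1 := rfl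
  have p5 : posP (.inr (.inl 2)) = 0 := rfl
  have q0 : posP (.inr (.inr (0, 0))) = 12 := rfl
  have q1 : posP (.inr (.inr (0, 1))) = 11 := rfl
  have q2 : posP (.inr (.inr (0, 2))) = 10 := rfl
  have q3 : posP (.inr (.inr (1, 0))) = 8 := rfl
  have q4 : posP (.inr (.inr (1, 1))) = 7 := rfl
  have q5 : posP (.inr (.inr (1, 2))) = 6 := rfl
  have q6 : posP (.inr (.inr (2, 0))) = 5 := rfl
  have q7 : posP (.inr (.inr (2, 1))) = 4 := rfl
  have q8 : posP (.inr (.inr (2, 2))) = 3 := rfl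
  rw [e0, e1, e2, e3, e4, e5, f0, f1, f2, f3, f4, f5, f6, f7, f8,
    p0, p1, p2, p3, p4, p5, q0, q1, q2, q3, q4, q5, q6, q7, q8]
  unfold H
  ring

theorem act_one (x : Pr → ℕ) : act 1 x = x := by
  funext e
  change x (pr (ends e).1 (ends e).2) = x e
  congr 1
  revert e
  decide

theorem code_eq (x : Pr → ℕ) : code x = H fun i j => x (pr i j) := by
  have h := code_act 1 x
  rw [act_one] at h
  exact h

theorem dg_step (n b k : ℕ) (hb : b ≤ 15) : dg (n * 16 + b) (16 ^ (k + 1)) = dg n (16 ^ k) := by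
  change (n * 16 + b) / 16 ^ (k + 1) % 16 = n / 16 ^ k % 16
  rw [pow_succ', ← Nat.div_div_eq_div_mul]
  congr 2
  omega

theorem dg_last (n b : ℕ) (hb : b ≤ 15) : dg (n * 16 + b) (16 ^ 0) = b := by
  change (n * 16 + b) / 16 ^ 0 % 16 = b
  rw [pow_zero, Nat.div_one]
  omega

theorem dg_first (b : ℕ) (hb : b ≤ 15) : dg b (16 ^ 0) = b := by
  change b / 16 ^ 0 % 16 = b
  rw [pow_zero, Nat.div_one]
  omega

/-- the digits -/
theorem dg_H (d : Fin 6 → Fin 6 → ℕ) (hd : ∀ i j, d i j ≤ 15) :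
    dg (H d) (16 ^ 14) = d 0 1 ∧ dg (H d) (16 ^ 13) = d 0 2 ∧ dg (H d) (16 ^ 12) = d 0 3 ∧
    dg (H d) (16 ^ 11) = d 0 4 ∧ dg (H d) (16 ^ 10) = d 0 5 ∧ dg (H d) (16 ^ 9) = d 1 2 ∧
    dg (H d) (16 ^ 8) = d 1 3 ∧ dg (H d) (16 ^ 7) = d 1 4 ∧ dg (H d) (16 ^ 6) = d 1 5 ∧
    dg (H d) (16 ^ 5) = d 2 3 ∧ dg (H d) (16 ^ 4) = d 2 4 ∧ dg (H d) (16 ^ 3) = d 2 5 ∧
    dg (H d) (16 ^ 2) = d 3 4 ∧ dg (H d) (16 ^ 1) = d 3 5 ∧ dg (H d) (16 ^ 0) = d 4 5 := by
  unfold H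
  refine ⟨?_, ?_, ?_, ?_, ?_, ?_, ?_, ?_, ?_, ?_, ?_, ?_, ?_, ?_, ?_⟩
  · rw [dg_step _ _ 13 (hd _ _), dg_step _ _ 12 (hd _ _), dg_step _ _ 11 (hd _ _),
      dg_step _ _ 10 (hd _ _), dg_step _ _ 9 (hd _ _), dg_step _ _ 8 (hd _ _),
      dg_step _ _ 7 (hd _ _), dg_step _ _ 6 (hd _ _), dg_step _ _ 5 (hd _ _),
      dg_step _ _ 4 (hd _ _), dg_step _ _ 3 (hd _ _), dg_step _ _ 2 (hd _ _),
      dg_step _ _ 1 (hd _ _), dg_step _ _ 0 (hd _ _), dg_first _ (hd _ _)]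
  · rw [dg_step _ _ 12 (hd _ _), dg_step _ _ 11 (hd _ _),
      dg_step _ _ 10 (hd _ _), dg_step _ _ 9 (hd _ _), dg_step _ _ 8 (hd _ _),
      dg_step _ _ 7 (hd _ _), dg_step _ _ 6 (hd _ _), dg_step _ _ 5 (hd _ _),
      dg_step _ _ 4 (hd _ _), dg_step _ _ 3 (hd _ _), dg_step _ _ 2 (hd _ _),
      dg_step _ _ 1 (hd _ _), dg_step _ _ 0 (hd _ _), dg_last _ _ (hd _ _)]
  · rw [dg_step _ _ 11 (hd _ _),
      dg_step _ _ 10 (hd _ _), dg_step _ _ 9 (hd _ _), dg_step _ _ 8 (hd _ _),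
      dg_step _ _ 7 (hd _ _), dg_step _ _ 6 (hd _ _), dg_step _ _ 5 (hd _ _),
      dg_step _ _ 4 (hd _ _), dg_step _ _ 3 (hd _ _), dg_step _ _ 2 (hd _ _),
      dg_step _ _ 1 (hd _ _), dg_step _ _ 0 (hd _ _), dg_last _ _ (hd _ _)]
  · rw [dg_step _ _ 10 (hd _ _), dg_step _ _ 9 (hd _ _), dg_step _ _ 8 (hd _ _),
      dg_step _ _ 7 (hd _ _), dg_step _ _ 6 (hd _ _), dg_step _ _ 5 (hd _ _),
      dg_step _ _ 4 (hd _ _), dg_step _ _ 3 (hd _ _), dg_step _ _ 2 (hd _ _),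
      dg_step _ _ 1 (hd _ _), dg_step _ _ 0 (hd _ _), dg_last _ _ (hd _ _)]
  · rw [dg_step _ _ 9 (hd _ _), dg_step _ _ 8 (hd _ _),
      dg_step _ _ 7 (hd _ _), dg_step _ _ 6 (hd _ _), dg_step _ _ 5 (hd _ _),
      dg_step _ _ 4 (hd _ _), dg_step _ _ 3 (hd _ _), dg_step _ _ 2 (hd _ _),
      dg_step _ _ 1 (hd _ _), dg_step _ _ 0 (hd _ _), dg_last _ _ (hd _ _)]
  · rw [dg_step _ _ 8 (hd _ _),
      dg_step _ _ 7 (hd _ _), dg_step _ _ 6 (hd _ _), dg_step _ _ 5 (hd _ _),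
      dg_step _ _ 4 (hd _ _), dg_step _ _ 3 (hd _ _), dg_step _ _ 2 (hd _ _),
      dg_step _ _ 1 (hd _ _), dg_step _ _ 0 (hd _ _), dg_last _ _ (hd _ _)]
  · rw [dg_step _ _ 7 (hd _ _), dg_step _ _ 6 (hd _ _), dg_step _ _ 5 (hd _ _),
      dg_step _ _ 4 (hd _ _), dg_step _ _ 3 (hd _ _), dg_step _ _ 2 (hd _ _),
      dg_step _ _ 1 (hd _ _), dg_step _ _ 0 (hd _ _), dg_last _ _ (hd _ _)]
  · rw [dg_step _ _ 6 (hd _ _), dg_step _ _ 5 (hd _ _),
      dg_step _ _ 4 (hd _ _), dg_step _ _ 3 (hd _ _), dg_step _ _ 2 (hd _ _),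
      dg_step _ _ 1 (hd _ _), dg_step _ _ 0 (hd _ _), dg_last _ _ (hd _ _)]
  · rw [dg_step _ _ 5 (hd _ _),
      dg_step _ _ 4 (hd _ _), dg_step _ _ 3 (hd _ _), dg_step _ _ 2 (hd _ _),
      dg_step _ _ 1 (hd _ _), dg_step _ _ 0 (hd _ _), dg_last _ _ (hd _ _)]
  · rw [dg_step _ _ 4 (hd _ _), dg_step _ _ 3 (hd _ _), dg_step _ _ 2 (hd _ _),
      dg_step _ _ 1 (hd _ _), dg_step _ _ 0 (hd _ _), dg_last _ _ (hd _ _)]
  · rw [dg_step _ _ 3 (hd _ _), dg_step _ _ 2 (hd _ _),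
      dg_step _ _ 1 (hd _ _), dg_step _ _ 0 (hd _ _), dg_last _ _ (hd _ _)]
  · rw [dg_step _ _ 2 (hd _ _),
      dg_step _ _ 1 (hd _ _), dg_step _ _ 0 (hd _ _), dg_last _ _ (hd _ _)]
  · rw [dg_step _ _ 1 (hd _ _), dg_step _ _ 0 (hd _ _), dg_last _ _ (hd _ _)]
  · rw [dg_step _ _ 0 (hd _ _), dg_last _ _ (hd _ _)]
  · rw [dg_last _ _ (hd _ _)]

/-- the digit of a pair -/
theorem dg_code (x : Pr → ℕ) (hx : ∀ e, x e ≤ 15) (u v : Fin 6) :
    dg (code x) (KK u v) = x (pr u v) := by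
  obtain ⟨h1, h2, h3, h4, h5, h6, h7, h8, h9, h10, h11, h12, h13, h14, h15⟩ :=
    dg_H (fun i j => x (pr i j)) (fun _ _ => hx _)
  rw [code_eq]
  have key : ∀ e : Pr, dg (H fun i j => x (pr i j)) (16 ^ posP e) = x e := by
    rintro (i | i | ⟨i, j⟩)
    · fin_cases i
      · exact h1
      · exact h2
      · exact h6
    · fin_cases i
      · exact h13
      · exact h14
      · exact h15
    · fin_cases i <;> fin_cases j
      · exact h3
      · exact h4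
      · exact h5
      · exact h7
      · exact h8
      · exact h9
      · exact h10
      · exact h11
      · exact h12
  exact key (pr u v)

/-! ### The list of relabellings -/

/-- the list of powers belonging to a relabelling -/
def kl (s : Fin 6 → Fin 6) : List ℕ :=
  [KK (s 0) (s 1), KK (s 0) (s 2), KK (s 0) (s 3), KK (s 0) (s 4), KK (s 0) (s 5),
   KK (s 1) (s 2), KK (s 1) (s 3), KK (s 1) (s 4), KK (s 1) (s 5), KK (s 2) (s 3),
   KK (s 2) (s 4), KK (s 2) (s 5), KK (s 3) (s 4), KK (s 3) (s 5), KK (s 4) (s 5)]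

theorem hor_kl (x : Pr → ℕ) (hx : ∀ e, x e ≤ 15) (s : Fin 6 → Fin 6) :
    hor (code x) (kl s) 0 = H fun i j => x (pr (s i) (s j)) := by
  have key : ∀ (g : ℕ → ℕ) (k0 k1 k2 k3 k4 k5 k6 k7 k8 k9 k10 k11 k12 k13 k14 : ℕ),
      [k0, k1, k2, k3, k4, k5, k6, k7, k8, k9, k10, k11, k12, k13, k14].foldl
        (fun acc k => acc * 16 + g k) 0 =
      ((((((((((((((g k0 * 16 + g k1) * 16 + g k2) * 16 + g k3) * 16 + g k4) * 16 + g k5) * 16
        + g k6) * 16 + g k7) * 16 + g k8) * 16 + g k9) * 16 + g k10) * 16 + g k11) * 16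
        + g k12) * 16 + g k13) * 16 + g k14) := by
    intro g k0 k1 k2 k3 k4 k5 k6 k7 k8 k9 k10 k11 k12 k13 k14
    simp only [List.foldl_cons, List.foldl_nil, zero_mul, zero_add]
  rw [hor_eq]
  unfold kl
  rw [key]
  simp only [dg_code x hx]
  rfl

/-- a map given by a list -/
def mp (l : List (Fin 6)) (i : Fin 6) : Fin 6 := getR 0 l i.val

/-- the relabellings of `FL` -/
def PL : List (List (Fin 6)) :=
  [[0, 1, 2, 3, 5, 4], [0, 1, 2, 4, 3, 5], [0, 1, 3, 2, 4, 5], [1, 0, 2, 4, 3, 5],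
   [1, 0, 3, 4, 5, 2], [1, 0, 4, 5, 3, 2], [1, 0, 5, 3, 4, 2], [5, 4, 3, 1, 2, 0],
   [0, 2, 1, 3, 4, 5], [5, 3, 4, 2, 1, 0], [5, 4, 2, 3, 1, 0], [4, 3, 5, 0, 2, 1],
   [1, 0, 4, 3, 2, 5], [0, 2, 1, 4, 3, 5], [1, 0, 3, 2, 4, 5], [1, 0, 3, 5, 4, 2],
   [1, 0, 2, 5, 4, 3], [4, 5, 3, 1, 0, 2], [3, 5, 4, 1, 0, 2], [2, 5, 0, 3, 1, 4]]

theorem PL_inj : ∀ l ∈ PL, ∀ i j : Fin 6, mp l i = mp l j → i = j := by
  decide +kernel

theorem FL_eq : FL = PL.map fun l => kl (mp l) := by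
  decide +kernel

/-- maximality in terms of maps -/
theorem max_H (x : Pr → ℕ) (hmax : ∀ σ, code (act σ x) ≤ code x) (s : Fin 6 → Fin 6)
    (hs : ∀ i j, s i = s j → i = j) :
    (H fun i j => x (pr (s i) (s j))) ≤ H fun i j => x (pr i j) := by
  have hb : Function.Bijective s := Finite.injective_iff_bijective.1 hs
  have h := hmax (Equiv.ofBijective s hb)
  rw [code_act, code_eq] at h
  exact h

theorem can_max (x : Pr → ℕ) (hx : ∀ e, x e ≤ 15) (hmax : ∀ σ, code (act σ x) ≤ code x) :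
    can FL (code x) = true := by
  apply can_of
  intro ks hks
  rw [FL_eq, List.mem_map] at hks
  obtain ⟨l, hl, rfl⟩ := hks
  rw [hor_kl x hx, code_eq]
  exact max_H x hmax (mp l) (PL_inj l hl)

/-! ### Comparison of the leading digits -/

theorem H_lead (d d' : Fin 6 → Fin 6 → ℕ) (h : H d ≤ H d') (hd : ∀ i j, d' i j ≤ 15) :
    d 0 1 ≤ d' 0 1 ∧ (d 0 1 = d' 0 1 → d 0 2 ≤ d' 0 2) ∧
    (d 0 1 = d' 0 1 → d 0 2 = d' 0 2 → d 0 3 ≤ d' 0 3) ∧
    (d 0 1 = d' 0 1 → d 0 2 = d' 0 2 → d 0 3 = d' 0 3 → d 0 4 ≤ d' 0 4) := by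
  unfold H at h
  have a1 := hd 0 1
  have a2 := hd 0 2
  have a3 := hd 0 3
  have a4 := hd 0 4
  have a5 := hd 0 5
  have b2 := hd 1 2
  have b3 := hd 1 3
  have b4 := hd 1 4
  have b5 := hd 1 5
  have c3 := hd 2 3
  have c4 := hd 2 4
  have c5 := hd 2 5
  have e4 := hd 3 4
  have e5 := hd 3 5
  have f5 := hd 4 5
  refine ⟨?_, fun h1 => ?_, fun h1 h2 => ?_, fun h1 h2 h3 => ?_⟩
  · omega
  · omega
  · omega
  · omega

theorem lead (x : Pr → ℕ) (hx : ∀ e, x e ≤ 15) (hmax : ∀ σ, code (act σ x) ≤ code x)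
    (l : List (Fin 6)) (hl : ∀ i j, mp l i = mp l j → i = j) :
    x (pr (mp l 0) (mp l 1)) ≤ x (pr 0 1) :=
  (H_lead _ _ (max_H x hmax (mp l) hl) fun _ _ => hx _).1

/-! ### The enumeration -/

theorem cond_get {b X : Bool} (h : cond b X true = true) (hb : b = true) : X = true := by
  rw [hb] at h
  exact h

theorem frc_get {n : ℕ} {f : ℕ → Bool} (h : frc n f = true) : f n = true := by
  rw [frc_eq] at h
  exact h

theorem enum_get (p N : ℕ) (tab : List BL) (TB : List LA) (FL : List (List ℕ))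
    (a b c d e f g h i j k l r3 r4 r5 u : ℕ) (H0 : enum p N tab TB FL a b = true)
    (h1 : c ≤ Nat.min b (p - a - b)) (h2 : d ≤ Nat.min c (p - a - b - c))
    (he : p - a - b - c - d = e) (h3 : e ≤ d) (h4 : f ≤ Nat.min a (p - a))
    (h5 : g ≤ Nat.min a (p - a - f)) (h6 : h ≤ Nat.min a (p - a - f - g))
    (hi : p - a - f - g - h = i) (h7 : i ≤ a) (h8 : j ≤ Nat.min a (p - b - f))
    (h9 : k ≤ Nat.min a (p - b - f - j)) (hl : p - b - f - j - k = l) (h10 : l ≤ a)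
    (h11 : c + g + j ≤ p) (h12 : d + h + k ≤ p) (h13 : e + i + l ≤ p)
    (hr3 : p - (c + g + j) = r3) (hr4 : p - (d + h + k) = r4) (hr5 : p - (e + i + l) = r5)
    (h14 : r5 ≤ r3 + r4) (hu : Nat.div (r3 + r4 - r5) 2 = u) (h15 : 2 * u = r3 + r4 - r5)
    (h16 : u ≤ r3) (h17 : u ≤ r4) (h18 : u ≤ a) (h19 : r3 - u ≤ a) (h20 : r4 - u ≤ a) :
    chk p N tab TB FL (((((((((((((((a * 16 + b) * 16 + c) * 16 + d) * 16 + e) * 16 + f) * 16
      + g) * 16 + h) * 16 + i) * 16 + j) * 16 + k) * 16 + l) * 16 + u) * 16 + (r3 - u)) * 16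
      + (r4 - u))) = true := by
  subst he hi hl hr3 hr4 hr5 hu
  unfold enum at H0
  have t1 := frc_get (fa_get (fa_get H0 h1) h2)
  have t2 := cond_get t1 (Nat.ble_eq_true_of_le h3)
  have t3 := frc_get (fa_get (fa_get (fa_get t2 h4) h5) h6)
  have t4 := cond_get t3 (Nat.ble_eq_true_of_le h7)
  have t5 := frc_get (fa_get (fa_get t4 h8) h9)
  have t6 := cond_get t5 (Nat.ble_eq_true_of_le h10)
  have t7 := cond_get t6 (Nat.ble_eq_true_of_le h11)
  have t8 := cond_get t7 (Nat.ble_eq_true_of_le h12)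
  have t9 := cond_get t8 (Nat.ble_eq_true_of_le h13)
  have t10a := frc_get t9
  beta_reduce at t10a
  have t10b := frc_get t10a
  beta_reduce at t10b
  have t10 := frc_get t10b
  beta_reduce at t10
  have t11 := frc_get (cond_get t10 (Nat.ble_eq_true_of_le h14))
  beta_reduce at t11
  have t12 := cond_get t11 (by rw [h15]; exact Nat.beq_refl _)
  have t13 := cond_get t12 (Nat.ble_eq_true_of_le h16)
  have t14 := cond_get t13 (Nat.ble_eq_true_of_le h17)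
  have t15 := cond_get t14 (Nat.ble_eq_true_of_le h18)
  have t16 := cond_get t15 (Nat.ble_eq_true_of_le h19)
  exact frc_get (cond_get t16 (Nat.ble_eq_true_of_le h20))

/-! ### The degrees -/

theorem deg_all (x : Pr → ℕ) :
    deg x 0 = x (.inl 0) + x (.inl 1) + x (.inr (.inr (0, 0))) + x (.inr (.inr (0, 1)))
      + x (.inr (.inr (0, 2))) ∧
    deg x 1 = x (.inl 0) + x (.inl 2) + x (.inr (.inr (1, 0))) + x (.inr (.inr (1, 1)))
      + x (.inr (.inr (1, 2))) ∧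
    deg x 2 = x (.inl 1) + x (.inl 2) + x (.inr (.inr (2, 0))) + x (.inr (.inr (2, 1)))
      + x (.inr (.inr (2, 2))) ∧
    deg x 3 = x (.inr (.inr (0, 0))) + x (.inr (.inr (1, 0))) + x (.inr (.inr (2, 0)))
      + x (.inr (.inl 0)) + x (.inr (.inl 1)) ∧
    deg x 4 = x (.inr (.inr (0, 1))) + x (.inr (.inr (1, 1))) + x (.inr (.inr (2, 1)))
      + x (.inr (.inl 0)) + x (.inr (.inl 2)) ∧
    deg x 5 = x (.inr (.inr (0, 2))) + x (.inr (.inr (1, 2))) + x (.inr (.inr (2, 2)))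
      + x (.inr (.inl 1)) + x (.inr (.inl 2)) := by
  unfold deg
  simp only [sum_Pr]
  have h0 : ∀ v : Fin 6, (v = (ends (.inl 0)).1 ∨ v = (ends (.inl 0)).2) ↔ (v = 0 ∨ v = 1) :=
    fun _ => Iff.rfl
  have h1 : ∀ v : Fin 6, (v = (ends (.inl 1)).1 ∨ v = (ends (.inl 1)).2) ↔ (v = 0 ∨ v = 2) :=
    fun _ => Iff.rfl
  have h2 : ∀ v : Fin 6, (v = (ends (.inl 2)).1 ∨ v = (ends (.inl 2)).2) ↔ (v = 1 ∨ v = 2) :=
    fun _ => Iff.rfl
  have h3 : ∀ v : Fin 6, (v = (ends (.inr (.inl 0))).1 ∨ v = (ends (.inr (.inl 0))).2) ↔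
    (v = 3 ∨ v = 4) := fun _ => Iff.rfl
  have h4 : ∀ v : Fin 6, (v = (ends (.inr (.inl 1))).1 ∨ v = (ends (.inr (.inl 1))).2) ↔
    (v = 3 ∨ v = 5) := fun _ => Iff.rfl
  have h5 : ∀ v : Fin 6, (v = (ends (.inr (.inl 2))).1 ∨ v = (ends (.inr (.inl 2))).2) ↔
    (v = 4 ∨ v = 5) := fun _ => Iff.rfl
  have g : ∀ (i j : Fin 3) (v : Fin 6), (v = (ends (.inr (.inr (i, j)))).1 ∨
    v = (ends (.inr (.inr (i, j)))).2) ↔ (v = inl i ∨ v = inr j) := fun _ _ _ => Iff.rfl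
  have l0 : (inl 0 : Fin 6) = 0 := rfl
  have l1 : (inl 1 : Fin 6) = 1 := rfl
  have l2 : (inl 2 : Fin 6) = 2 := rfl
  have r0 : (inr 0 : Fin 6) = 3 := rfl
  have r1 : (inr 1 : Fin 6) = 4 := rfl
  have r2 : (inr 2 : Fin 6) = 5 := rfl
  simp only [h0, h1, h2, h3, h4, h5, g, l0, l1, l2, r0, r1, r2]
  refine ⟨?_, ?_, ?_, ?_, ?_, ?_⟩ <;>
  · simp (decide := true) only [if_true, if_false]
    omega

/-- the enumeration in terms of numbers -/
theorem enum_num (p N : ℕ) (tab : List BL) (a b c d e f g h i j k l u v w : ℕ)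
    (H0 : enum p N tab TB FL a b = true) (d0 : p = a + b + c + d + e)
    (d1 : p = a + f + g + h + i) (d2 : p = b + f + j + k + l) (d3 : p = c + g + j + u + v)
    (d4 : p = d + h + k + u + w) (d5 : p = e + i + l + v + w) (n23 : c ≤ b) (n34 : d ≤ c)
    (n45 : e ≤ d) (m12 : f ≤ a) (m13 : g ≤ a) (m14 : h ≤ a) (m15 : i ≤ a) (m23 : j ≤ a)
    (m24 : k ≤ a) (m25 : l ≤ a) (m34 : u ≤ a) (m35 : v ≤ a) (m45 : w ≤ a) :
    chk p N tab TB FL (((((((((((((((a * 16 + b) * 16 + c) * 16 + d) * 16 + e) * 16 + f) * 16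
      + g) * 16 + h) * 16 + i) * 16 + j) * 16 + k) * 16 + l) * 16 + u) * 16 + v) * 16
      + w)) = true := by
  have hchk := enum_get p N tab TB FL a b c d e f g h i j k l (u + v) (u + w) (v + w) u H0
    (Nat.le_min.2 ⟨n23, by omega⟩) (Nat.le_min.2 ⟨n34, by omega⟩) (by omega) n45
    (Nat.le_min.2 ⟨m12, by omega⟩) (Nat.le_min.2 ⟨m13, by omega⟩)
    (Nat.le_min.2 ⟨m14, by omega⟩) (by omega) m15 (Nat.le_min.2 ⟨m23, by omega⟩)
    (Nat.le_min.2 ⟨m24, by omega⟩) (by omega) m25 (by omega) (by omega) (by omega)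
    (by omega) (by omega) (by omega) (by omega)
    (by change (u + v + (u + w) - (v + w)) / 2 = u; omega) (by omega) (by omega) (by omega)
    m34 (by omega) (by omega)
  rw [Nat.add_sub_cancel_left, Nat.add_sub_cancel_left] at hchk
  exact hchk

theorem bound (x : Pr → ℕ) (p : ℕ) (hp : p ≤ 11) (hC : Cmp p x) : ∀ e, x e ≤ 15 := by
  obtain ⟨d0, d1, d2, d3, d4, d5⟩ := deg_all x
  rw [hC 0] at d0
  rw [hC 1] at d1
  rw [hC 2] at d2
  rw [hC 3] at d3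
  rw [hC 4] at d4
  rw [hC 5] at d5
  rintro (i | i | ⟨i, j⟩)
  · fin_cases i
    · change x (.inl 0) ≤ 15
      omega
    · change x (.inl 1) ≤ 15
      omega
    · change x (.inl 2) ≤ 15
      omega
  · fin_cases i
    · change x (.inr (.inl 0)) ≤ 15
      omega
    · change x (.inr (.inl 1)) ≤ 15
      omega
    · change x (.inr (.inl 2)) ≤ 15
      omega
  · fin_cases i <;> fin_cases j
    · change x (.inr (.inr (0, 0))) ≤ 15
      omega
    · change x (.inr (.inr (0, 1))) ≤ 15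
      omega
    · change x (.inr (.inr (0, 2))) ≤ 15
      omega
    · change x (.inr (.inr (1, 0))) ≤ 15
      omega
    · change x (.inr (.inr (1, 1))) ≤ 15
      omega
    · change x (.inr (.inr (1, 2))) ≤ 15
      omega
    · change x (.inr (.inr (2, 0))) ≤ 15
      omega
    · change x (.inr (.inr (2, 1))) ≤ 15
      omega
    · change x (.inr (.inr (2, 2))) ≤ 15
      omega

/-- all pairs are at most `x01` -/
theorem le_a (x : Pr → ℕ) (hx : ∀ e, x e ≤ 15) (hmax : ∀ σ, code (act σ x) ≤ code x) :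
    x (.inl 1) ≤ x (.inl 0) ∧ x (.inl 2) ≤ x (.inl 0) ∧
    x (.inr (.inr (1, 0))) ≤ x (.inl 0) ∧ x (.inr (.inr (1, 1))) ≤ x (.inl 0) ∧
    x (.inr (.inr (1, 2))) ≤ x (.inl 0) ∧ x (.inr (.inr (2, 0))) ≤ x (.inl 0) ∧
    x (.inr (.inr (2, 1))) ≤ x (.inl 0) ∧ x (.inr (.inr (2, 2))) ≤ x (.inl 0) ∧
    x (.inr (.inl 0)) ≤ x (.inl 0) ∧ x (.inr (.inl 1)) ≤ x (.inl 0) ∧
    x (.inr (.inl 2)) ≤ x (.inl 0) := by
  refine ⟨?_, ?_, ?_, ?_, ?_, ?_, ?_, ?_, ?_, ?_, ?_⟩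
  · exact lead x hx hmax [0, 2, 1, 3, 4, 5] (by decide +kernel)
  · exact lead x hx hmax [1, 2, 0, 3, 4, 5] (by decide +kernel)
  · exact lead x hx hmax [1, 3, 2, 0, 4, 5] (by decide +kernel)
  · exact lead x hx hmax [1, 4, 2, 3, 0, 5] (by decide +kernel)
  · exact lead x hx hmax [1, 5, 2, 3, 4, 0] (by decide +kernel)
  · exact lead x hx hmax [2, 3, 0, 1, 4, 5] (by decide +kernel)
  · exact lead x hx hmax [2, 4, 0, 3, 1, 5] (by decide +kernel)
  · exact lead x hx hmax [2, 5, 0, 3, 4, 1] (by decide +kernel)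
  · exact lead x hx hmax [3, 4, 2, 0, 1, 5] (by decide +kernel)
  · exact lead x hx hmax [3, 5, 2, 0, 4, 1] (by decide +kernel)
  · exact lead x hx hmax [4, 5, 2, 3, 0, 1] (by decide +kernel)

/-- neighbours -/
theorem nbr (x : Pr → ℕ) (hx : ∀ e, x e ≤ 15) (hmax : ∀ σ, code (act σ x) ≤ code x) :
    x (.inr (.inr (0, 0))) ≤ x (.inl 1) ∧
    x (.inr (.inr (0, 1))) ≤ x (.inr (.inr (0, 0))) ∧
    x (.inr (.inr (0, 2))) ≤ x (.inr (.inr (0, 1))) := by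
  refine ⟨?_, ?_, ?_⟩
  · exact (H_lead _ _ (max_H x hmax (mp [0, 1, 3, 2, 4, 5]) (by decide +kernel)) fun _ _ =>
      hx _).2.1 rfl
  · exact (H_lead _ _ (max_H x hmax (mp [0, 1, 2, 4, 3, 5]) (by decide +kernel)) fun _ _ =>
      hx _).2.2.1 rfl rfl
  · exact (H_lead _ _ (max_H x hmax (mp [0, 1, 2, 3, 5, 4]) (by decide +kernel)) fun _ _ =>
      hx _).2.2.2 rfl rfl rfl

theorem chk_gam {p N : ℕ} {tab : List BL} {TB : List LA} {FL : List (List ℕ)} {C : ℕ}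
    (h : chk p N tab TB FL C = true) (hc : can FL C = true) :
    gam p N tab TB C (Int.ofNat (Nat.mul 720 N)) = 0 := by
  unfold chk at h
  rw [hc] at h
  exact of_decide_eq_true h

/-- ENU -/
theorem enu : EnuStatement := by
  intro p N tab hp hp11 henum x hC hmax
  have hx := bound x p hp11 hC
  obtain ⟨d0, d1, d2, d3, d4, d5⟩ := deg_all x
  rw [hC 0] at d0
  rw [hC 1] at d1
  rw [hC 2] at d2
  rw [hC 3] at d3
  rw [hC 4] at d4
  rw [hC 5] at d5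
  obtain ⟨m02, m12, m13, m14, m15, m23, m24, m25, m34, m35, m45⟩ := le_a x hx hmax
  obtain ⟨n23, n34, n45⟩ := nbr x hx hmax
  have hab : x (.inl 0) + x (.inl 1) ≤ p := by omega
  have hchk := enum_num p N tab _ _ _ _ _ _ _ _ _ _ _ _ _ _ _ (henum _ _ m02 hab)
    d0 d1 d2 d3 d4 d5 n23 n34 n45 m12 m13 m14 m15 m23 m24 m25 m34 m35 m45
  refine chk_gam ?_ (can_max x hx hmax)
  rw [code_eq]
  exact hchk

end A602.S6.H22
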